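import Mathlib

/-!
# MP_418a80_an, NC: real powers of unipotent upper triangular matrices

`Lo k P`: `P a b = 0` for `b < a + k`. For `g - 1` in `Lo 1` the real powers are
`g ^ s = ∑ k < N, binom(s, k) (g - 1) ^ k`, a matrix of polynomials in `s`.
-/

set_option autoImplicit false
set_option linter.unusedVariables false
set_option linter.unusedSectionVars false

open Topology Filter

namespace Pool.Agent.AbCoc

variable {N : ℕ}

/-- `P a b = 0` for `b < a + k` -/
def Lo (k : ℕ) (P : Matrix (Fin N) (Fin N) ℝ) : Prop :=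
  ∀ a b : Fin N, (b : ℕ) < a + k → P a b = 0

theorem Lo.mono {k l : ℕ} {P : Matrix (Fin N) (Fin N) ℝ} (h : Lo k P) (hl : l ≤ k) : Lo l P :=
  fun a b hab => h a b (by omega)

theorem Lo.add {k : ℕ} {P Q : Matrix (Fin N) (Fin N) ℝ} (h : Lo k P) (h' : Lo k Q) :
    Lo k (P + Q) := fun a b hab => by rw [Matrix.add_apply, h a b hab, h' a b hab, add_zero]

theorem Lo.neg {k : ℕ} {P : Matrix (Fin N) (Fin N) ℝ} (h : Lo k P) : Lo k (-P) :=
  fun a b hab => by rw [Matrix.neg_apply, h a b hab, neg_zero]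

theorem Lo.sub {k : ℕ} {P Q : Matrix (Fin N) (Fin N) ℝ} (h : Lo k P) (h' : Lo k Q) :
    Lo k (P - Q) := fun a b hab => by rw [Matrix.sub_apply, h a b hab, h' a b hab, sub_zero]

theorem Lo.smul {k : ℕ} {P : Matrix (Fin N) (Fin N) ℝ} (h : Lo k P) (c : ℝ) : Lo k (c • P) :=
  fun a b hab => by rw [Matrix.smul_apply, h a b hab, smul_zero]

theorem Lo.zero {k : ℕ} : Lo k (0 : Matrix (Fin N) (Fin N) ℝ) := fun a b _ => rfl

theorem Lo.one : Lo 0 (1 : Matrix (Fin N) (Fin N) ℝ) := fun a b hab =>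
  Matrix.one_apply_ne fun h => by
    rw [h] at hab
    omega

theorem Lo.mul {k l : ℕ} {P Q : Matrix (Fin N) (Fin N) ℝ} (h : Lo k P) (h' : Lo l Q) :
    Lo (k + l) (P * Q) := by
  intro a b hab
  rw [Matrix.mul_apply]
  refine Finset.sum_eq_zero fun c _ => ?_
  by_cases hc : (c : ℕ) < a + k
  · rw [h a c hc, zero_mul]
  · rw [h' c b (by omega), mul_zero]

theorem Lo.pow {P : Matrix (Fin N) (Fin N) ℝ} (h : Lo 1 P) (n : ℕ) : Lo n (P ^ n) := by
  induction n with
  | zero => rw [pow_zero]; exact Lo.one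
  | succ n ih => rw [pow_succ]; exact ih.mul h

theorem Lo.eq_zero {k : ℕ} {P : Matrix (Fin N) (Fin N) ℝ} (h : Lo k P) (hk : N ≤ k) : P = 0 := by
  ext a b
  exact h a b (by have := b.isLt; omega)

theorem Lo.sum {k : ℕ} {ι : Type*} {s : Finset ι} {P : ι → Matrix (Fin N) (Fin N) ℝ}
    (h : ∀ i ∈ s, Lo k (P i)) : Lo k (∑ i ∈ s, P i) := by
  intro a b hab
  rw [Matrix.sum_apply]
  exact Finset.sum_eq_zero fun i hi => h i hi a b hab

/-- matrices of polynomials in a real variable -/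
def PolM (f : ℝ → Matrix (Fin N) (Fin N) ℝ) : Prop :=
  ∀ i j, ∃ P : Polynomial ℝ, ∀ s, f s i j = P.eval s

theorem PolM.ext {f f' : ℝ → Matrix (Fin N) (Fin N) ℝ} (h : PolM f) (h' : PolM f')
    (he : ∀ n : ℕ, f n = f' n) (s : ℝ) : f s = f' s := by
  ext i j
  obtain ⟨P, hP⟩ := h i j
  obtain ⟨P', hP'⟩ := h' i j
  have h1 : P = P' := by
    refine Polynomial.eq_of_infinite_eval_eq P P' ?_
    refine Set.Infinite.mono ?_ (Set.infinite_range_of_injective Nat.cast_injective)
    rintro x ⟨n, rfl⟩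
    change P.eval (n : ℝ) = P'.eval (n : ℝ)
    rw [← hP, ← hP', he]
  rw [hP, hP', h1]

theorem PolM.const (B : Matrix (Fin N) (Fin N) ℝ) : PolM fun _ => B :=
  fun i j => ⟨Polynomial.C (B i j), fun s => by rw [Polynomial.eval_C]⟩

theorem PolM.mul {f f' : ℝ → Matrix (Fin N) (Fin N) ℝ} (h : PolM f) (h' : PolM f') :
    PolM fun s => f s * f' s := by
  intro i j
  choose P hP using h
  choose P' hP' using h'
  refine ⟨∑ k, P i k * P' k j, fun s => ?_⟩
  change (f s * f' s) i j = _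
  rw [Matrix.mul_apply, Polynomial.eval_finsetSum]
  refine Finset.sum_congr rfl fun k _ => ?_
  rw [Polynomial.eval_mul, hP, hP']

theorem PolM.sum {ι : Type*} {t : Finset ι} {f : ι → ℝ → Matrix (Fin N) (Fin N) ℝ}
    (h : ∀ i ∈ t, PolM (f i)) : PolM fun s => ∑ i ∈ t, f i s := by
  classical
  intro a b
  have h1 : ∀ i : ι, ∃ P : Polynomial ℝ, i ∈ t → ∀ s, f i s a b = P.eval s := by
    intro i
    by_cases hi : i ∈ t
    · obtain ⟨P, hP⟩ := h i hi a b
      exact ⟨P, fun _ => hP⟩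
    · exact ⟨0, fun h => absurd h hi⟩
  choose P hP using h1
  refine ⟨∑ i ∈ t, P i, fun s => ?_⟩
  change (∑ i ∈ t, f i s) a b = _
  rw [Matrix.sum_apply, Polynomial.eval_finsetSum]
  exact Finset.sum_congr rfl fun i hi => hP i hi s

theorem PolM.comp {f : ℝ → Matrix (Fin N) (Fin N) ℝ} (h : PolM f) (Q : Polynomial ℝ) :
    PolM fun s => f (Q.eval s) := by
  intro i j
  obtain ⟨P, hP⟩ := h i j
  refine ⟨P.comp Q, fun s => ?_⟩
  change f (Q.eval s) i j = _
  rw [Polynomial.eval_comp, hP]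

theorem PolM.smul (Q : Polynomial ℝ) (B : Matrix (Fin N) (Fin N) ℝ) :
    PolM fun s => Q.eval s • B := by
  intro i j
  refine ⟨Q * Polynomial.C (B i j), fun s => ?_⟩
  change (Q.eval s • B) i j = _
  rw [Matrix.smul_apply, Polynomial.eval_mul, Polynomial.eval_C, smul_eq_mul]

/-- `binom(s, k)` -/
noncomputable def bp (k : ℕ) : Polynomial ℝ :=
  Polynomial.C ((k.factorial : ℝ)⁻¹) * descPochhammer ℝ k

theorem bp_eval_nat (k n : ℕ) : (bp k).eval (n : ℝ) = (n.choose k : ℝ) := by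
  unfold bp
  rw [Polynomial.eval_mul, Polynomial.eval_C, descPochhammer_eval_eq_descFactorial,
    Nat.descFactorial_eq_factorial_mul_choose]
  push_cast
  rw [inv_mul_cancel_left₀ (by exact_mod_cast k.factorial_ne_zero)]

theorem bp_zero : (bp 0) = 1 := by
  unfold bp
  rw [descPochhammer_zero]
  simp

theorem bp_one (s : ℝ) : (bp 1).eval s = s := by
  unfold bp
  simp

/-- real powers -/
noncomputable def pwM (s : ℝ) (g : Matrix (Fin N) (Fin N) ℝ) : Matrix (Fin N) (Fin N) ℝ :=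
  ∑ k ∈ Finset.range N, (bp k).eval s • (g - 1) ^ k

theorem polM_pwM (g : Matrix (Fin N) (Fin N) ℝ) : PolM fun s => pwM s g :=
  PolM.sum fun k _ => PolM.smul (bp k) _

theorem continuous_pwM :
    Continuous fun x : ℝ × Matrix (Fin N) (Fin N) ℝ => pwM x.1 x.2 := by
  unfold pwM
  refine continuous_finsetSum _ fun k _ => ?_
  exact ((bp k).continuous.comp continuous_fst).smul ((continuous_snd.sub continuous_const).pow k)

theorem pwM_nat {g : Matrix (Fin N) (Fin N) ℝ} (hg : Lo 1 (g - 1)) (n : ℕ) :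
    pwM (n : ℝ) g = g ^ n := by
  have h1 : g ^ n = ∑ k ∈ Finset.range (n + 1), (n.choose k : ℝ) • (g - 1) ^ k := by
    have h2 := (Commute.one_right (g - 1)).add_pow n
    rw [sub_add_cancel] at h2
    rw [h2]
    refine Finset.sum_congr rfl fun k _ => ?_
    rw [one_pow, mul_one, ← nsmul_eq_mul', Nat.cast_smul_eq_nsmul]
  have h3 : ∀ m : ℕ, N ≤ m → n + 1 ≤ m →
      ∑ k ∈ Finset.range m, (n.choose k : ℝ) • (g - 1) ^ k = g ^ n ∧
      ∑ k ∈ Finset.range m, (n.choose k : ℝ) • (g - 1) ^ k = pwM (n : ℝ) g := by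
    intro m hm hm'
    constructor
    · rw [h1]
      symm
      refine Finset.sum_subset (Finset.range_mono hm') fun k _ hk => ?_
      rw [Finset.mem_range, not_lt] at hk
      rw [Nat.choose_eq_zero_of_lt (by omega), Nat.cast_zero, zero_smul]
    · unfold pwM
      symm
      refine (Finset.sum_congr rfl fun k _ => by rw [bp_eval_nat]).trans
        (Finset.sum_subset (Finset.range_mono hm) fun k _ hk => ?_)
      rw [Finset.mem_range, not_lt] at hk
      rw [(hg.pow k).eq_zero hk, smul_zero]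
  have h4 := h3 (max N (n + 1)) (le_max_left _ _) (le_max_right _ _)
  rw [← h4.1, h4.2]

theorem pwM_add {g : Matrix (Fin N) (Fin N) ℝ} (hg : Lo 1 (g - 1)) (s t : ℝ) :
    pwM (s + t) g = pwM s g * pwM t g := by
  have h1 : ∀ (n : ℕ) (s : ℝ), pwM (s + n) g = pwM s g * pwM n g := by
    intro n s
    have e1 : PolM fun s => pwM (s + n) g := by
      have := (polM_pwM g).comp (Polynomial.X + Polynomial.C (n : ℝ))
      simpa using this
    have e2 : PolM fun s => pwM s g * pwM n g := (polM_pwM g).mul (PolM.const _)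
    refine e1.ext e2 (fun m => ?_) s
    have : ((m : ℝ) + (n : ℝ)) = ((m + n : ℕ) : ℝ) := by push_cast; rfl
    rw [this, pwM_nat hg, pwM_nat hg, pwM_nat hg, pow_add]
  have e1 : PolM fun t => pwM (s + t) g := by
    have := (polM_pwM g).comp (Polynomial.C s + Polynomial.X)
    simpa using this
  have e2 : PolM fun t => pwM s g * pwM t g := (PolM.const _).mul (polM_pwM g)
  exact e1.ext e2 (fun m => h1 m s) t

theorem pwM_zero {g : Matrix (Fin N) (Fin N) ℝ} (hg : Lo 1 (g - 1)) : pwM 0 g = 1 := by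
  have := pwM_nat hg 0
  rwa [Nat.cast_zero, pow_zero] at this

theorem pwM_one {g : Matrix (Fin N) (Fin N) ℝ} (hg : Lo 1 (g - 1)) : pwM 1 g = g := by
  have := pwM_nat hg 1
  rwa [Nat.cast_one, pow_one] at this

/-- `g ^ s` is again unipotent; more precisely -/
theorem Lo.pwM_sub {k : ℕ} (hk : 1 ≤ k) {g : Matrix (Fin N) (Fin N) ℝ} (hg : Lo k (g - 1)) (s : ℝ) :
    Lo (k + 1) (pwM s g - 1 - s • (g - 1)) := by
  by_cases hN : N = 0
  · subst hN
    exact fun a => a.elim0
  have h1 : pwM s g = 1 + ∑ j ∈ Finset.range (N - 1), (bp (j + 1)).eval s • (g - 1) ^ (j + 1) := by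
    unfold pwM
    obtain ⟨m, hm⟩ : ∃ m, N = m + 1 := ⟨N - 1, by omega⟩
    have h2 : Finset.range N = Finset.range (m + 1) := by rw [← hm]
    have h3 : N - 1 = m := by omega
    rw [h2, Finset.sum_range_succ', h3, bp_zero]
    simp [add_comm]
  rw [h1]
  intro a b hab
  rcases Nat.lt_or_ge 1 N with hN1 | hN1
  · obtain ⟨m, hm⟩ : ∃ m, N - 1 = m + 1 := ⟨N - 2, by omega⟩
    rw [hm, Finset.sum_range_succ']
    have h4 : Lo (k + 1) (∑ j ∈ Finset.range m, (bp (j + 1 + 1)).eval s • (g - 1) ^ (j + 1 + 1)) := by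
      refine Lo.sum fun j _ => Lo.smul ?_ _
      have h5 : ∀ n : ℕ, Lo (k + n) ((g - 1) ^ (n + 1)) := by
        intro n
        induction n with
        | zero => rw [zero_add, pow_one]; exact hg
        | succ n ih =>
          rw [pow_succ]
          exact (ih.mul hg).mono (by omega)
      exact (h5 (j + 1)).mono (by omega)
    have h6 : 1 + (∑ j ∈ Finset.range m, (bp (j + 1 + 1)).eval s • (g - 1) ^ (j + 1 + 1)
        + (bp (0 + 1)).eval s • (g - 1) ^ (0 + 1)) - 1 - s • (g - 1)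
        = ∑ j ∈ Finset.range m, (bp (j + 1 + 1)).eval s • (g - 1) ^ (j + 1 + 1) := by
      rw [zero_add, pow_one, bp_one]
      abel
    rw [h6]
    exact h4 a b hab
  · have h7 : N = 1 := by omega
    subst h7
    have h8 : g - 1 = 0 := (hg).eq_zero hk
    rw [h8]
    simp

theorem Lo.pwM {k : ℕ} (hk : 1 ≤ k) {g : Matrix (Fin N) (Fin N) ℝ} (hg : Lo k (g - 1)) (s : ℝ) :
    Lo k (pwM s g - 1) := by
  have h1 := ((hg.pwM_sub hk s).mono (Nat.le_succ k)).add (hg.smul s)
  rwa [sub_add_cancel] at h1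

theorem pwM_mul {g : Matrix (Fin N) (Fin N) ℝ} (hg : Lo 1 (g - 1)) (s t : ℝ) :
    pwM s (pwM t g) = pwM (s * t) g := by
  have h1 : ∀ (n : ℕ) (t : ℝ), pwM n (pwM t g) = pwM (n * t) g := by
    intro n t
    rw [pwM_nat (hg.pwM le_rfl t)]
    induction n with
    | zero => rw [pow_zero, Nat.cast_zero, zero_mul, pwM_zero hg]
    | succ n ih =>
      rw [pow_succ, ih, ← pwM_add hg]
      congr 1
      push_cast
      ring
  have e1 : PolM fun s => pwM s (pwM t g) := polM_pwM _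
  have e2 : PolM fun s => pwM (s * t) g := by
    have := (polM_pwM g).comp (Polynomial.C t * Polynomial.X)
    simp only [Polynomial.eval_mul, Polynomial.eval_C, Polynomial.eval_X] at this
    simpa only [mul_comm] using this
  exact e1.ext e2 (fun m => h1 m t) s

theorem Lo.mul_sub_one {k : ℕ} (hk : 1 ≤ k) {g h : Matrix (Fin N) (Fin N) ℝ} (hg : Lo k (g - 1))
    (hh : Lo k (h - 1)) : Lo (k + 1) (g * h - 1 - ((g - 1) + (h - 1))) := by
  have h1 : g * h - 1 - ((g - 1) + (h - 1)) = (g - 1) * (h - 1) := by noncomm_ring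
  rw [h1]
  exact (hg.mul hh).mono (by omega)

end Pool.Agent.AbCoc
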