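import Pool.Agent.Lib_MP_418a80_nil.UN0

/-!
# MP_418a80_an, NC: closed divisible groups of unipotent upper triangular matrices

Real powers, and the central chain given by the positions `(i, i + k)`, ordered by `(k, i)`.
-/

set_option autoImplicit false
set_option linter.unusedVariables false
set_option linter.unusedSectionVars false

open Topology Filter

namespace Pool.Agent.AbCoc

/-- closed divisible subgroups of the group of unipotent upper triangular `N × N` matrices -/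
structure UniSub {N : ℕ} (H : Subgroup (Matrix (Fin N) (Fin N) ℝ)ˣ) : Prop where
  uni : ∀ u ∈ H, Lo 1 ((u : Matrix (Fin N) (Fin N) ℝ) - 1)
  closed : IsClosed (H : Set (Matrix (Fin N) (Fin N) ℝ)ˣ)
  div : ∀ m : ℕ, 0 < m → ∀ u ∈ H, ∃ v ∈ H, v ^ m = u

variable {N : ℕ}

/-- real powers as units -/
noncomputable def pwU (s : ℝ) (u : Matrix (Fin N) (Fin N) ℝ) (hu : Lo 1 (u - 1)) :
    (Matrix (Fin N) (Fin N) ℝ)ˣ where
  val := pwM s u
  inv := pwM (-s) u
  val_inv := by rw [← pwM_add hu, add_neg_cancel, pwM_zero hu]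
  inv_val := by rw [← pwM_add hu, neg_add_cancel, pwM_zero hu]

theorem pwU_val (s : ℝ) (u : Matrix (Fin N) (Fin N) ℝ) (hu : Lo 1 (u - 1)) :
    ((pwU s u hu : (Matrix (Fin N) (Fin N) ℝ)ˣ) : Matrix (Fin N) (Fin N) ℝ) = pwM s u := rfl

theorem pwU_inv (s : ℝ) (u : Matrix (Fin N) (Fin N) ℝ) (hu : Lo 1 (u - 1)) :
    (pwU s u hu)⁻¹ = pwU (-s) u hu := by
  ext1
  rfl

theorem continuous_pwU (u : Matrix (Fin N) (Fin N) ℝ) (hu : Lo 1 (u - 1)) :
    Continuous fun s => pwU s u hu := by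
  rw [Units.continuous_iff]
  constructor
  · exact continuous_pwM.comp (continuous_id.prodMk continuous_const)
  · have h1 : (fun s => (((pwU s u hu)⁻¹ : (Matrix (Fin N) (Fin N) ℝ)ˣ) :
        Matrix (Fin N) (Fin N) ℝ)) = fun s => pwM (-s) u := rfl
    rw [h1]
    exact continuous_pwM.comp (continuous_neg.prodMk continuous_const)

section
variable {H : Subgroup (Matrix (Fin N) (Fin N) ℝ)ˣ}

theorem UniSub.pwU_mem (hH : UniSub H) (s : ℝ) (u : (Matrix (Fin N) (Fin N) ℝ)ˣ) (hu : u ∈ H) :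
    pwU s (u : Matrix (Fin N) (Fin N) ℝ) (hH.uni u hu) ∈ H := by
  -- natural multiples of `1 / m`
  have h1 : ∀ (n m : ℕ), 0 < m →
      pwU ((n : ℝ) / m) (u : Matrix (Fin N) (Fin N) ℝ) (hH.uni u hu) ∈ H := by
    intro n m hm
    obtain ⟨v, hv, hvu⟩ := hH.div m hm u hu
    have hv1 := hH.uni v hv
    have h2 : pwU ((n : ℝ) / m) (u : Matrix (Fin N) (Fin N) ℝ) (hH.uni u hu) = v ^ n := by
      ext1
      rw [pwU_val, Units.val_pow_eq_pow_val, ← pwM_nat hv1 n]
      have h3 : (u : Matrix (Fin N) (Fin N) ℝ) = pwM (m : ℝ) (v : Matrix (Fin N) (Fin N) ℝ) := by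
        rw [pwM_nat hv1, ← Units.val_pow_eq_pow_val, hvu]
      rw [h3, pwM_mul hv1]
      congr 1
      field_simp
    rw [h2]
    exact H.pow_mem hv n
  have h2 : ∀ q : ℚ, pwU (q : ℝ) (u : Matrix (Fin N) (Fin N) ℝ) (hH.uni u hu) ∈ H := by
    intro q
    have hq : (q : ℝ) = (q.num : ℝ) / (q.den : ℝ) := by exact_mod_cast (Rat.num_div_den q).symm
    rcases Int.eq_nat_or_neg q.num with ⟨n, hn | hn⟩
    · rw [hn] at hq
      push_cast at hq
      rw [hq]
      exact h1 n q.den q.den_pos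
    · rw [hn] at hq
      push_cast at hq
      rw [neg_div] at hq
      rw [hq, ← pwU_inv]
      exact H.inv_mem (h1 n q.den q.den_pos)
  have h3 : IsClosed {s : ℝ | pwU s (u : Matrix (Fin N) (Fin N) ℝ) (hH.uni u hu) ∈ H} :=
    hH.closed.preimage (continuous_pwU _ _)
  exact Rat.denseRange_cast.induction_on (p := fun s => pwU s (u : Matrix (Fin N) (Fin N) ℝ)
    (hH.uni u hu) ∈ H) s h3 h2

/-- real powers in `H` -/
noncomputable def UniSub.pw (hH : UniSub H) (s : ℝ) (u : H) : H :=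
  ⟨pwU s ((u : (Matrix (Fin N) (Fin N) ℝ)ˣ) : Matrix (Fin N) (Fin N) ℝ) (hH.uni _ u.2),
    hH.pwU_mem s _ u.2⟩

/-- the matrix of an element of `H` -/
def mt (u : H) : Matrix (Fin N) (Fin N) ℝ := ((u : (Matrix (Fin N) (Fin N) ℝ)ˣ) :
  Matrix (Fin N) (Fin N) ℝ)

theorem mt_mul (u v : H) : mt (u * v) = mt u * mt v := rfl

theorem mt_one : mt (1 : H) = 1 := rfl

theorem mt_pow (u : H) (n : ℕ) : mt (u ^ n) = mt u ^ n := rfl

theorem mt_inj {u v : H} (h : mt u = mt v) : u = v := Subtype.ext (Units.ext h)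

theorem mt_mul_inv (u : H) : mt u * mt u⁻¹ = 1 := by
  rw [← mt_mul, mul_inv_cancel, mt_one]

theorem mt_inv_mul (u : H) : mt u⁻¹ * mt u = 1 := by
  rw [← mt_mul, inv_mul_cancel, mt_one]

theorem continuous_mt : Continuous (mt : H → Matrix (Fin N) (Fin N) ℝ) :=
  Units.continuous_val.comp continuous_subtype_val

theorem UniSub.lo (hH : UniSub H) (u : H) : Lo 1 (mt u - 1) := hH.uni _ u.2

theorem UniSub.mt_pw (hH : UniSub H) (s : ℝ) (u : H) : mt (hH.pw s u) = pwM s (mt u) := rfl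

theorem UniSub.continuous_pw (hH : UniSub H) : Continuous fun x : ℝ × H => hH.pw x.1 x.2 := by
  refine Continuous.subtype_mk ?_ _
  rw [Units.continuous_iff]
  constructor
  · exact continuous_pwM.comp (continuous_fst.prodMk (continuous_mt.comp continuous_snd))
  · exact continuous_pwM.comp ((continuous_neg.comp continuous_fst).prodMk
      (continuous_mt.comp continuous_snd))

theorem UniSub.pw_one (hH : UniSub H) (u : H) : hH.pw 1 u = u :=
  mt_inj (by rw [hH.mt_pw, pwM_one (hH.lo u)])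

theorem UniSub.pw_zero (hH : UniSub H) (u : H) : hH.pw 0 u = 1 :=
  mt_inj (by rw [hH.mt_pw, pwM_zero (hH.lo u), mt_one])

theorem UniSub.pw_add (hH : UniSub H) (s t : ℝ) (u : H) :
    hH.pw (s + t) u = hH.pw s u * hH.pw t u :=
  mt_inj (by rw [mt_mul, hH.mt_pw, hH.mt_pw, hH.mt_pw, pwM_add (hH.lo u)])

theorem UniSub.pw_mul (hH : UniSub H) (s t : ℝ) (u : H) :
    hH.pw s (hH.pw t u) = hH.pw (s * t) u :=
  mt_inj (by rw [hH.mt_pw, hH.mt_pw, hH.mt_pw, pwM_mul (hH.lo u)])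

theorem UniSub.pw_nat (hH : UniSub H) (n : ℕ) (u : H) : hH.pw n u = u ^ n :=
  mt_inj (by rw [hH.mt_pw, pwM_nat (hH.lo u), mt_pow])

/-- roots are unique -/
theorem UniSub.root_unique (hH : UniSub H) (n : ℕ) (hn : 0 < n) (u v : H) (h : u ^ n = v ^ n) :
    u = v := by
  have hn' : (n : ℝ) ≠ 0 := by exact_mod_cast hn.ne'
  have e : ∀ w : H, w = hH.pw (n : ℝ)⁻¹ (w ^ n) := by
    intro w
    rw [← hH.pw_nat, hH.pw_mul, inv_mul_cancel₀ hn', hH.pw_one]
  rw [e u, e v, h]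

/-- the positions before `(k, i)` -/
def Bef (k i : ℕ) (a b : Fin N) : Prop := (b : ℕ) < a + k ∨ ((b : ℕ) = a + k ∧ (a : ℕ) < i)

theorem Bef.le {k i : ℕ} {a b : Fin N} (h : Bef k i a b) : (b : ℕ) < a + (k + 1) := by
  rcases h with h | h <;> omega

/-- matrices with entries `0` before `(k, i)` -/
def Lp (k i : ℕ) (P : Matrix (Fin N) (Fin N) ℝ) : Prop := ∀ a b, Bef k i a b → P a b = 0

theorem Lp.lo {k i : ℕ} {P : Matrix (Fin N) (Fin N) ℝ} (h : Lp k i P) : Lo k P :=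
  fun a b hab => h a b (Or.inl hab)

theorem Lo.lp {k i : ℕ} {P : Matrix (Fin N) (Fin N) ℝ} (h : Lo (k + 1) P) : Lp k i P :=
  fun a b hab => h a b hab.le

theorem Lp.add {k i : ℕ} {P Q : Matrix (Fin N) (Fin N) ℝ} (h : Lp k i P) (h' : Lp k i Q) :
    Lp k i (P + Q) := fun a b hab => by rw [Matrix.add_apply, h a b hab, h' a b hab, add_zero]

theorem Lp.neg {k i : ℕ} {P : Matrix (Fin N) (Fin N) ℝ} (h : Lp k i P) : Lp k i (-P) :=
  fun a b hab => by rw [Matrix.neg_apply, h a b hab, neg_zero]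

theorem Lp.smul {k i : ℕ} {P : Matrix (Fin N) (Fin N) ℝ} (h : Lp k i P) (c : ℝ) :
    Lp k i (c • P) := fun a b hab => by rw [Matrix.smul_apply, h a b hab, smul_zero]

theorem lo_mt_inv (hH : UniSub H) {k : ℕ} (hk : 1 ≤ k) {u : H} (hu : Lo k (mt u - 1)) :
    Lo (k + 1) (mt u⁻¹ - 1 - -(mt u - 1)) := by
  have h1 : mt u⁻¹ - 1 - -(mt u - 1) = -((mt u - 1) * (mt u⁻¹ - 1)) := by
    have h2 := mt_mul_inv u
    have h3 : -((mt u - 1) * (mt u⁻¹ - 1)) = mt u⁻¹ - 1 - -(mt u - 1) - (mt u * mt u⁻¹ - 1) := by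
      noncomm_ring
    rw [h3, h2, sub_self, sub_zero]
  rw [h1]
  exact ((hu.mul (hH.lo u⁻¹)).neg)

/-- the subgroup of the elements with entries `0` before `(k, i)` -/
def UniSub.sg (hH : UniSub H) (k : ℕ) (hk : 1 ≤ k) (i : ℕ) : Subgroup H where
  carrier := {u | Lp k i (mt u - 1)}
  one_mem' := fun a b _ => by rw [mt_one, sub_self]; rfl
  mul_mem' := by
    intro u v hu hv
    have h1 := (Lo.mul_sub_one hk hu.lo hv.lo).lp (i := i)
    have h2 := h1.add (hu.add hv)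
    rw [sub_add_cancel] at h2
    exact h2
  inv_mem' := by
    intro u hu
    have h1 := (lo_mt_inv hH hk hu.lo).lp (i := i)
    have h2 := h1.add hu.neg
    rw [sub_add_cancel] at h2
    exact h2

theorem UniSub.mem_sg (hH : UniSub H) {k : ℕ} {hk : 1 ≤ k} {i : ℕ} {u : H} :
    u ∈ hH.sg k hk i ↔ Lp k i (mt u - 1) := Iff.rfl

/-- the entry `(i, i + k)` -/
def ent0 (k i : ℕ) (P : Matrix (Fin N) (Fin N) ℝ) : ℝ :=
  if h : i + k < N then P ⟨i, by omega⟩ ⟨i + k, h⟩ else 0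

theorem ent0_add (k i : ℕ) (P Q : Matrix (Fin N) (Fin N) ℝ) :
    ent0 k i (P + Q) = ent0 k i P + ent0 k i Q := by
  unfold ent0
  split_ifs
  · rfl
  · rw [add_zero]

theorem ent0_smul (k i : ℕ) (c : ℝ) (P : Matrix (Fin N) (Fin N) ℝ) :
    ent0 k i (c • P) = c * ent0 k i P := by
  unfold ent0
  split_ifs
  · rfl
  · rw [mul_zero]

theorem ent0_lo {k i : ℕ} {P : Matrix (Fin N) (Fin N) ℝ} (h : Lo (k + 1) P) : ent0 k i P = 0 := by
  unfold ent0
  split_ifs with hi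
  · exact h _ _ (by change i + k < i + (k + 1); omega)
  · rfl

theorem continuous_ent0 (k i : ℕ) : Continuous (ent0 (N := N) k i) := by
  unfold ent0
  split_ifs with hi
  · exact (continuous_apply _).comp (continuous_apply _)
  · exact continuous_const

theorem ent0_congr {k i : ℕ} {P Q : Matrix (Fin N) (Fin N) ℝ} (h : Lo (k + 1) (P - Q)) :
    ent0 k i P = ent0 k i Q := by
  have h1 := ent0_add k i (P - Q) Q
  rw [sub_add_cancel, ent0_lo h, zero_add] at h1
  exact h1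

/-- the entry of an element -/
def pe (k i : ℕ) (u : H) : ℝ := ent0 k i (mt u - 1)

theorem continuous_pe (k i : ℕ) : Continuous (pe (H := H) k i) :=
  (continuous_ent0 k i).comp (continuous_mt.sub continuous_const)

theorem pe_mul {k : ℕ} (hk : 1 ≤ k) (i : ℕ) {u v : H} (hu : Lo k (mt u - 1))
    (hv : Lo k (mt v - 1)) : pe k i (u * v) = pe k i u + pe k i v := by
  unfold pe
  rw [← ent0_add]
  exact ent0_congr (Lo.mul_sub_one hk hu hv)

theorem UniSub.pe_pw (hH : UniSub H) {k : ℕ} (hk : 1 ≤ k) (i : ℕ) (s : ℝ) {u : H}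
    (hu : Lo k (mt u - 1)) : pe k i (hH.pw s u) = s * pe k i u := by
  unfold pe
  rw [← ent0_smul, hH.mt_pw]
  exact ent0_congr (hu.pwM_sub hk s)

theorem UniSub.pw_mem_sg (hH : UniSub H) {k : ℕ} {hk : 1 ≤ k} {i : ℕ} (s : ℝ) {u : H}
    (hu : u ∈ hH.sg k hk i) : hH.pw s u ∈ hH.sg k hk i := by
  have h1 := (Lo.pwM_sub hk hu.lo s).lp (i := i)
  have h2 := h1.add (hu.smul s)
  rw [sub_add_cancel] at h2
  exact h2

/-- the kernel of the entry map -/
theorem UniSub.mem_sg_succ (hH : UniSub H) {k : ℕ} {hk : 1 ≤ k} {i : ℕ} {u : H}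
    (hu : u ∈ hH.sg k hk i) : u ∈ hH.sg k hk (i + 1) ↔ pe k i u = 0 := by
  constructor
  · intro h
    unfold pe ent0
    split_ifs with hi
    · exact h _ _ (Or.inr ⟨rfl, Nat.lt_succ_self i⟩)
    · rfl
  · intro h a b hab
    by_cases hab' : Bef k i a b
    · exact hu a b hab'
    · have h1 : (b : ℕ) = a + k ∧ (a : ℕ) = i := by
        unfold Bef at hab hab'
        omega
      have hi : i + k < N := by
        have := b.isLt
        omega
      unfold pe ent0 at h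
      rw [dif_pos hi] at h
      have hb : (⟨i + k, hi⟩ : Fin N) = b := Fin.ext (by rw [h1.1, h1.2])
      have ha : (⟨i, by omega⟩ : Fin N) = a := Fin.ext h1.2.symm
      rw [hb, ha] at h
      exact h

theorem UniSub.sg_succ_le (hH : UniSub H) {k : ℕ} {hk : 1 ≤ k} {i : ℕ} :
    hH.sg k hk (i + 1) ≤ hH.sg k hk i := fun u hu a b hab => hu a b (by
      unfold Bef at hab ⊢
      omega)

/-- centrality -/
theorem UniSub.comm_sg (hH : UniSub H) {k : ℕ} {hk : 1 ≤ k} {i : ℕ} (g u : H)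
    (hu : u ∈ hH.sg k hk i) : g * u * g⁻¹ * u⁻¹ ∈ hH.sg k hk (i + 1) := by
  have h1 : mt (g * u * g⁻¹ * u⁻¹) - 1
      = ((mt g - 1) * (mt u - 1) - (mt u - 1) * (mt g - 1)) * mt g⁻¹ * mt u⁻¹ := by
    have e1 := mt_mul_inv g
    have e2 := mt_mul_inv u
    rw [mt_mul, mt_mul, mt_mul]
    have e3 : ((mt g - 1) * (mt u - 1) - (mt u - 1) * (mt g - 1)) * mt g⁻¹ * mt u⁻¹
        = mt g * mt u * mt g⁻¹ * mt u⁻¹ - mt u * (mt g * mt g⁻¹) * mt u⁻¹ := by noncomm_ring
    rw [e3, e1, mul_one, e2]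
  have h2 : Lo (k + 1) (mt (g * u * g⁻¹ * u⁻¹) - 1) := by
    rw [h1]
    have hg0 : ∀ w : H, Lo 0 (mt w) := fun w => by
      have := ((hH.lo w).mono (Nat.zero_le 1)).add Lo.one
      rwa [sub_add_cancel] at this
    have e4 : Lo (k + 1) ((mt g - 1) * (mt u - 1) - (mt u - 1) * (mt g - 1)) :=
      (((hH.lo g).mul hu.lo).mono (by omega)).sub ((Lp.lo hu).mul (hH.lo g))
    exact (e4.mul (hg0 g⁻¹)).mul (hg0 u⁻¹)
  exact h2.lp

theorem UniSub.sg_top (hH : UniSub H) : hH.sg 1 le_rfl 0 = ⊤ := by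
  rw [eq_top_iff]
  intro u _ a b hab
  refine hH.lo u a b ?_
  unfold Bef at hab
  omega

theorem UniSub.sg_bot (hH : UniSub H) {k : ℕ} (hk : 1 ≤ k) (hN : N ≤ k) (i : ℕ) :
    hH.sg k hk i = ⊥ := by
  rw [eq_bot_iff]
  intro u hu
  rw [Subgroup.mem_bot]
  have h1 : mt u - 1 = 0 := (Lp.lo hu).eq_zero hN
  exact mt_inj (by rw [mt_one]; exact sub_eq_zero.1 h1)

theorem UniSub.sg_next (hH : UniSub H) {k : ℕ} (hk : 1 ≤ k) :
    hH.sg k hk N = hH.sg (k + 1) (by omega) 0 := by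
  ext u
  constructor
  · intro h a b hab
    refine h a b ?_
    have := a.isLt
    unfold Bef at hab ⊢
    omega
  · intro h a b hab
    refine h a b ?_
    unfold Bef at hab ⊢
    omega

theorem UniSub.isClosed_sg (hH : UniSub H) {k : ℕ} {hk : 1 ≤ k} {i : ℕ} :
    IsClosed (hH.sg k hk i : Set H) := by
  have h1 : (hH.sg k hk i : Set H) = ⋂ (a : Fin N) (b : Fin N) (_ : Bef k i a b),
      {u : H | (mt u - 1) a b = 0} := by
    ext u
    simp only [Set.mem_iInter, Set.mem_ofPred_eq, SetLike.mem_coe]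
    exact Iff.rfl
  rw [h1]
  refine isClosed_iInter fun a => isClosed_iInter fun b => isClosed_iInter fun _ => ?_
  refine isClosed_eq ?_ continuous_const
  have h2 : Continuous fun u : H => mt u - 1 := continuous_mt.sub continuous_const
  exact (continuous_apply b).comp ((continuous_apply a).comp h2)

end

end Pool.Agent.AbCoc
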