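import Pool.Agent.Lib_MP_418a80_nil.UN1

/-!
# MP_418a80_an, NC: closed divisible groups of unipotent upper triangular matrices are nilpotent
-/

set_option autoImplicit false
set_option linter.unusedVariables false
set_option linter.unusedSectionVars false

open Topology Filter

namespace Pool.Agent.AbCoc

variable {N : ℕ} {H : Subgroup (Matrix (Fin N) (Fin N) ℝ)ˣ}

theorem UniSub.comm_mem (hH : UniSub H) {k : ℕ} (hk : 1 ≤ k) (g u : H)
    (hu : u ∈ hH.sg k hk 0) : u * g * u⁻¹ * g⁻¹ ∈ hH.sg (k + 1) (by omega) 0 := by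
  have h1 : mt (u * g * u⁻¹ * g⁻¹) - 1
      = ((mt u - 1) * (mt g - 1) - (mt g - 1) * (mt u - 1)) * mt u⁻¹ * mt g⁻¹ := by
    have e1 := mt_mul_inv g
    have e2 := mt_mul_inv u
    rw [mt_mul, mt_mul, mt_mul]
    have e3 : ((mt u - 1) * (mt g - 1) - (mt g - 1) * (mt u - 1)) * mt u⁻¹ * mt g⁻¹
        = mt u * mt g * mt u⁻¹ * mt g⁻¹ - mt g * (mt u * mt u⁻¹) * mt g⁻¹ := by noncomm_ring
    rw [e3, e2, mul_one, e1]
  have h2 : Lo (k + 1) (mt (u * g * u⁻¹ * g⁻¹) - 1) := by
    rw [h1]
    have hg0 : ∀ w : H, Lo 0 (mt w) := fun w => by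
      have := ((hH.lo w).mono (Nat.zero_le 1)).add Lo.one
      rwa [sub_add_cancel] at this
    have e4 : Lo (k + 1) ((mt u - 1) * (mt g - 1) - (mt g - 1) * (mt u - 1)) :=
      ((Lp.lo hu).mul (hH.lo g)).sub (((hH.lo g).mul (Lp.lo hu)).mono (by omega))
    exact (e4.mul (hg0 u⁻¹)).mul (hg0 g⁻¹)
  intro a b hab
  refine h2 a b ?_
  unfold Bef at hab
  omega

theorem UniSub.isNilpotent (hH : UniSub H) : Group.IsNilpotent H := by
  rw [Subgroup.nilpotent_iff_finite_descending_central_series]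
  refine ⟨N, fun n => hH.sg (n + 1) (by omega) 0, ⟨hH.sg_top, ?_⟩, hH.sg_bot _ (Nat.le_succ N) 0⟩
  intro x n hx g
  exact hH.comm_mem (by omega) g x hx

instance instSecondCountableUnitsMatrix : SecondCountableTopology (Matrix (Fin N) (Fin N) ℝ)ˣ := by
  have h1 : SecondCountableTopology (Matrix (Fin N) (Fin N) ℝ) :=
    inferInstanceAs (SecondCountableTopology (Fin N → Fin N → ℝ))
  have h2 : SecondCountableTopology (Matrix (Fin N) (Fin N) ℝ)ᵐᵒᵖ :=
    MulOpposite.opHomeomorph.symm.isEmbedding.secondCountableTopology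
  exact Units.isEmbedding_embedProduct.secondCountableTopology

instance instLocallyCompactMatrix : LocallyCompactSpace (Matrix (Fin N) (Fin N) ℝ) :=
  inferInstanceAs (LocallyCompactSpace (Fin N → Fin N → ℝ))

theorem UniSub.locallyCompact (hH : UniSub H) : LocallyCompactSpace H :=
  hH.closed.isClosedEmbedding_subtypeVal.locallyCompactSpace

theorem secondCountable_unitsMatrix_subgroup (H : Subgroup (Matrix (Fin N) (Fin N) ℝ)ˣ) :
    SecondCountableTopology H :=
  inferInstanceAs (SecondCountableTopology ((H : Set (Matrix (Fin N) (Fin N) ℝ)ˣ) :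
    Set (Matrix (Fin N) (Fin N) ℝ)ˣ))

example : IsTopologicalGroup H := inferInstance

example : T2Space H := inferInstance

end Pool.Agent.AbCoc
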