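import Pool.Agent.Lib_MP_418a80_nil.UN2
import Pool.Agent.Lib_MP_418a80_t3.NG0

/-!
# MP_418a80_an, NC: closed divisible groups of unipotent upper triangular matrices have continuous real
powers
-/

set_option autoImplicit false

open Topology Filter

namespace Pool.Agent.AbCoc

/-- real powers of a closed divisible group of unipotent upper triangular matrices -/
noncomputable def UniSub.rpow {N : ℕ} {H : Subgroup (Matrix (Fin N) (Fin N) ℝ)ˣ} (hH : UniSub H) :
    RPow H where
  pw := hH.pw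
  cont := hH.continuous_pw
  one := hH.pw_one
  add := hH.pw_add
  root := hH.root_unique

/-- closed divisible groups of unipotent upper triangular matrices, in terms of the entries -/
theorem uniSub_of {N : ℕ} (H : Subgroup (Matrix (Fin N) (Fin N) ℝ)ˣ)
    (h1 : ∀ u ∈ H, ∀ a b : Fin N, b < a → (u : Matrix (Fin N) (Fin N) ℝ) a b = 0)
    (h2 : ∀ u ∈ H, ∀ a : Fin N, (u : Matrix (Fin N) (Fin N) ℝ) a a = 1)
    (h3 : IsClosed (H : Set (Matrix (Fin N) (Fin N) ℝ)ˣ))
    (h4 : ∀ m : ℕ, 0 < m → ∀ u ∈ H, ∃ v ∈ H, v ^ m = u) : UniSub H := by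
  refine ⟨fun u hu a b hab => ?_, h3, h4⟩
  rw [Matrix.sub_apply]
  rcases eq_or_ne a b with h | h
  · subst h
    rw [h2 u hu, Matrix.one_apply_eq, sub_self]
  · have h5 : (b : ℕ) ≠ a := fun h' => h (Fin.ext h'.symm)
    rw [h1 u hu a b (by rw [Fin.lt_def]; omega), Matrix.one_apply_ne h, sub_self]

end Pool.Agent.AbCoc
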